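import Mathlib

set_option autoImplicit false

namespace Pool.Agent.Results.MP_408802_co.Cex

open Finset Relation Classical

/-- Weighted reachability count of the one-step relation `s`. -/
noncomputable def R {V : Type} [Fintype V] (s : V → V → Prop) (w : V → ℕ) : ℕ :=
  2 * ∑ v, (w v).choose 2 +
    ∑ p : V × V, if p.1 ≠ p.2 ∧ ReflTransGen s p.1 p.2 then w p.1 * w p.2 else 0

/-- `O` replaces every edge of `E` by exactly one of its two arcs. -/
def Orient {V : Type} (E : SimpleGraph V) (O : V → V → Prop) : Prop :=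
  (∀ u v, O u v → E.Adj u v) ∧ ∀ u v, E.Adj u v → (O u v ↔ ¬ O v u)

def fl {k : ℕ} (h : ℕ) (p : Fin k → Bool) : Fin k → Bool :=
  fun i => if i.val + 1 = h then !p i else p i

theorem fl_fl {k : ℕ} (h : ℕ) (p : Fin k → Bool) : fl h (fl h p) = p := by
  funext i; unfold fl; split_ifs <;> simp

abbrev V (k : ℕ) := Fin (k + 2) × (Fin k → Bool)

def E (k : ℕ) : SimpleGraph (V k) where
  Adj x y := x.1 = y.1 ∧ y.2 = fl x.1 x.2 ∧ x ≠ y
  symm := ⟨fun x y h => ⟨h.1.symm, by rw [h.2.1, h.1, fl_fl], h.2.2.symm⟩⟩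
  loopless := ⟨fun x h => h.2.2 rfl⟩

def A (k : ℕ) (x y : V k) : Prop := x.1.val = y.1.val + 1 ∧ x.2 = y.2

def w (k : ℕ) (x : V k) : ℕ := if x.1.val = 0 ∨ x.1.val = k + 1 then 1 else 0

noncomputable def S {k : ℕ} (o : ℕ → (Fin k → Bool) → Prop) : ℕ → (Fin k → Bool) →
    Finset (Fin k → Bool)
  | 0, p => {p}
  | h + 1, p => S o h p ∪ if o (h + 1) p then S o h (fl (h + 1) p) else ∅

theorem sq_bd {k : ℕ} (o : ℕ → (Fin k → Bool) → Prop) (ho : ∀ h p, o h p → ¬ o h (fl h p)) :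
    ∀ h, ∑ p, #(S o h p) ^ 2 ≤ 3 ^ h * 2 ^ k
  | 0 => by simp [S]
  | h + 1 => by
    have ih := sq_bd o ho h
    have e : ∀ f : (Fin k → Bool) → ℕ, ∑ p, f (fl (h + 1) p) = ∑ p, f p := fun f =>
      Equiv.sum_comp (Function.Involutive.toPerm _ (fl_fl (h + 1))) f
    have key : ∑ p, (#(S o (h + 1) p) ^ 2 + #(S o (h + 1) (fl (h + 1) p)) ^ 2) ≤
        ∑ p, (3 * #(S o h p) ^ 2 + 3 * #(S o h (fl (h + 1) p)) ^ 2) := by
      refine sum_le_sum fun p _ => ?_
      have u1 := card_union_le (S o h p) (S o h (fl (h + 1) p))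
      have u2 := card_union_le (S o h (fl (h + 1) p)) (S o h p)
      have c := ho (h + 1) p
      simp only [S, fl_fl]
      have v1 := Nat.pow_le_pow_left u1 2
      have v2 := Nat.pow_le_pow_left u2 2
      have v3 := two_mul_le_add_sq #(S o h p) #(S o h (fl (h + 1) p))
      by_cases c1 : o (h + 1) p <;> by_cases c2 : o (h + 1) (fl (h + 1) p)
      · exact absurd c2 (c c1)
      all_goals
        simp only [c1, c2, if_true, if_false, union_empty]
        nlinarith
    rw [sum_add_distrib, sum_add_distrib, ← mul_sum, ← mul_sum, e fun p => #(S o (h + 1) p) ^ 2,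
      e fun p => #(S o h p) ^ 2] at key
    rw [pow_succ]
    nlinarith

theorem lay (k : ℕ) (Q : (Fin k → Bool) → Finset (Fin k → Bool)) :
    (∑ z : V k × V k, if z.1.1 = Fin.last _ ∧ z.2.1 = 0 ∧ z.2.2 ∈ Q z.1.2 then 1 else 0) =
      ∑ p, #(Q p) := by
  simp [Fintype.sum_prod_type, ite_and]

theorem w0 (k : ℕ) : ∑ v, (w k v).choose 2 = 0 :=
  sum_eq_zero fun v _ => by unfold w; split_ifs <;> rfl

theorem reach (k : ℕ) (q : Fin k → Bool) : ∀ (h : ℕ) (hh : h < k + 2) (p : Fin k → Bool),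
    (∀ i, h ≤ i.val → p i = q i) →
      ReflTransGen (fun u v => A k u v ∨ (E k).Adj u v) (⟨h, hh⟩, p) (0, q)
  | 0, _, p, e => by
    rw [show p = q from funext fun i => e i (Nat.zero_le _)]
    exact .refl
  | h + 1, hh, p, e => by
    by_cases c : ∀ i, h ≤ i.val → p i = q i
    · exact .head (b := (⟨h, by omega⟩, p)) (Or.inl ⟨rfl, rfl⟩) (reach k q h _ p c)
    push Not at c
    obtain ⟨i, hi, c⟩ := c
    have hi' : i.val + 1 = h + 1 := by
      by_contra d
      exact c (e i (by omega))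
    refine .head (b := (⟨h + 1, hh⟩, fl (h + 1) p)) (Or.inr ⟨rfl, rfl, fun d => ?_⟩)
      (.head (b := (⟨h, by omega⟩, fl (h + 1) p)) (Or.inl ⟨rfl, rfl⟩)
        (reach k q h _ _ fun j hj => ?_))
    · have := congrFun (congrArg Prod.snd d) i
      simp [fl, hi'] at this
    · unfold fl
      split_ifs with d
      · obtain rfl : j = i := Fin.ext (by omega)
        revert c
        cases p j <;> cases q j <;> simp
      · exact e j (by omega)

theorem low (k : ℕ) : 2 ^ k * 2 ^ k ≤ R (fun u v => A k u v ∨ (E k).Adj u v) (w k) := by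
  have := lay k fun _ => univ
  simp only [card_univ, sum_const, Fintype.card_fun, Fintype.card_bool, Fintype.card_fin,
    smul_eq_mul] at this
  rw [← this, R, w0, mul_zero, zero_add]
  refine sum_le_sum fun z _ => ?_
  obtain ⟨⟨a, p⟩, b, q⟩ := z
  split_ifs with c d
  · obtain ⟨rfl, rfl, -⟩ : a = Fin.last _ ∧ b = 0 ∧ _ := c
    simp [w]
  · obtain ⟨rfl, rfl, -⟩ : a = Fin.last _ ∧ b = 0 ∧ _ := c
    refine absurd ⟨fun e => ?_, reach k q (k + 1) _ p fun i hi => by omega⟩ d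
    have := congrArg (fun x => x.1.val) e
    simp at this
  all_goals omega

theorem up (k : ℕ) (O : V k → V k → Prop) (hO : Orient (E k) O) :
    R (fun u v => A k u v ∨ O u v) (w k) ^ 2 ≤ 2 ^ k * (3 ^ (k + 1) * 2 ^ k) := by
  let o : ℕ → (Fin k → Bool) → Prop := fun h p =>
    ∃ hh : h < k + 2, O (⟨h, hh⟩, p) (⟨h, hh⟩, fl h p)
  have ho : ∀ h p, o h p → ¬ o h (fl h p) := fun h p ⟨hh, a⟩ ⟨_, b⟩ => by
    rw [fl_fl] at b
    exact (hO.2 _ _ (hO.1 _ _ a)).1 a b
  have st : ∀ x y, A k x y ∨ O x y → S o y.1 y.2 ⊆ S o x.1 x.2 ∧ y.1.val ≤ x.1.val ∧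
      (w k x ≠ 0 → y.1.val < x.1.val) := by
    rintro ⟨⟨a, ha⟩, p⟩ ⟨⟨b, hb⟩, q⟩ (⟨e1, e2⟩ | e)
    · obtain rfl : a = b + 1 := e1
      obtain rfl : p = q := e2
      exact ⟨subset_union_left, Nat.le_succ _, fun _ => Nat.lt_succ_self _⟩
    obtain ⟨e1, e2, e3⟩ := hO.1 _ _ e
    obtain rfl : a = b := congrArg Fin.val e1
    obtain rfl : q = fl a p := e2
    have n : ¬ (a = 0 ∨ a = k + 1) := fun c => e3 (by
      rw [show fl a p = p from funext fun i => if_neg (by omega)])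
    refine ⟨?_, le_rfl, fun c => absurd (if_neg n) c⟩
    obtain ⟨h, rfl⟩ : ∃ h, a = h + 1 := ⟨a - 1, by omega⟩
    have c : o (h + 1) p := ⟨ha, e⟩
    simp only [S, c, ho _ _ c, if_true, if_false, union_empty]
    exact subset_union_right
  have rt : ∀ x y, ReflTransGen (fun u v => A k u v ∨ O u v) x y →
      S o y.1 y.2 ⊆ S o x.1 x.2 ∧ y.1.val ≤ x.1.val := fun x y h => by
    induction h with
    | refl => exact ⟨Subset.rfl, le_rfl⟩
    | tail _ s ih => exact ⟨(st _ _ s).1.trans ih.1, (st _ _ s).2.1.trans ih.2⟩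
  have b : R (fun u v => A k u v ∨ O u v) (w k) ≤ ∑ p, #(S o (k + 1) p) := by
    rw [← lay, R, w0, mul_zero, zero_add]
    refine sum_le_sum fun z _ => ?_
    obtain ⟨x, y⟩ := z
    split_ifs with c d d
    · simp only [w]
      split_ifs <;> norm_num
    · by_contra g
      have g' : w k x ≠ 0 ∧ w k y ≠ 0 := mul_ne_zero_iff.1 (by simpa using g)
      obtain e | ⟨u, s, r⟩ := c.2.cases_head
      · exact c.1 e
      have l := (rt _ _ r).2.trans_lt ((st _ _ s).2.2 g'.1)
      have hx : x.1.val = 0 ∨ x.1.val = k + 1 := by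
        by_contra n
        exact g'.1 (if_neg n)
      have hy : y.1.val = 0 ∨ y.1.val = k + 1 := by
        by_contra n
        exact g'.2 (if_neg n)
      have hx' : x.1.val = k + 1 := by
        simp only at l
        omega
      have hy' : y.1.val = 0 := by
        simp only at l
        omega
      have m := (rt _ _ c.2).1
      simp only [hx', hy', S] at m
      exact d ⟨Fin.ext hx', Fin.ext hy', m (mem_singleton_self _)⟩
    all_goals omega
  refine (Nat.pow_le_pow_left b 2).trans (sq_sum_le_card_mul_sum_sq.trans ?_)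
  simp only [card_univ, Fintype.card_fun, Fintype.card_bool, Fintype.card_fin, Nat.cast_id]
  exact Nat.mul_le_mul_left _ (sq_bd o ho _)

theorem result (α : ℝ) (hα : 0 < α) : ∃ (V : Type) (_ : Fintype V) (E : SimpleGraph V)
    (A : V → V → Prop) (w : V → ℕ), (∀ v, ¬ A v v) ∧ ∀ O, Orient E O →
      (R (fun u v => A u v ∨ O u v) w : ℝ) < α * R (fun u v => A u v ∨ E.Adj u v) w := by
  obtain ⟨k, hk⟩ := exists_pow_lt_of_lt_one (by positivity : 0 < α ^ 2 / 3)
    (by norm_num : (3 / 4 : ℝ) < 1)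
  refine ⟨V k, inferInstance, E k, A k, w k, fun v h => by have := h.1; omega, fun O hO => ?_⟩
  have l : ((2 ^ k * 2 ^ k : ℕ) : ℝ) ≤ _ := Nat.cast_le.2 (low k)
  have u : ((_ : ℕ) : ℝ) ≤ (2 ^ k * (3 ^ (k + 1) * 2 ^ k) : ℕ) := Nat.cast_le.2 (up k O hO)
  push_cast at l u
  refine lt_of_lt_of_le (lt_of_pow_lt_pow_left₀ 2 (by positivity) (u.trans_lt ?_))
    (mul_le_mul_of_nonneg_left l hα.le)
  rw [div_pow, div_lt_div_iff₀ (by positivity) (by norm_num),
    show (4 : ℝ) ^ k = 2 ^ k * 2 ^ k by rw [← mul_pow]; norm_num] at hk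
  have p : (0 : ℝ) < 2 ^ k * 2 ^ k := by positivity
  have := mul_lt_mul_of_pos_right hk p
  rw [pow_succ]
  nlinarith

end Pool.Agent.Results.MP_408802_co.Cex
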